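import Pool.Agent.TeamU.Genus
import Pool.Agent.Y755.FK.Stm

/-!
Project FK: an ambiguous class of an imaginary quadratic field is a square if and only if the norm
of its ideal is a norm.
-/

set_option autoImplicit false

open NumberField Module nonZeroDivisors

namespace Pool.Agent.Y629.FK

open Pool.Agent.TeamU.Genus Pool.Agent.Y755.FK

theorem exists_sigma_neg {k : Type} [Field k] [NumberField k] (h2 : finrank ℚ k = 2) {n : ℕ}
    (hn : n ≠ 0) {s : k} (hs : s ^ 2 = -(n : k)) :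
    ∃ σ : k ≃ₐ[ℚ] k, σ s = -s ∧ (∀ x, σ (σ x) = x) ∧
      ∀ x : k, σ x = x → ∃ q : ℚ, x = algebraMap ℚ k q := by
  have : Algebra.IsQuadraticExtension ℚ k := ⟨h2⟩
  have : IsGalois ℚ k := inferInstance
  have hcard : Nat.card (k ≃ₐ[ℚ] k) = 2 := by
    rw [IsGalois.card_aut_eq_finrank, h2]
  have hsnot : ¬ ∃ q : ℚ, s = algebraMap ℚ k q := by
    rintro ⟨q, rfl⟩
    have h1 : q ^ 2 = -(n : ℚ) := by
      apply (algebraMap ℚ k).injective
      rw [map_pow, hs, map_neg, map_natCast]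
    have h3 : (0 : ℚ) < n := by exact_mod_cast Nat.pos_of_ne_zero hn
    nlinarith [sq_nonneg q]
  have hex : ∃ σ : k ≃ₐ[ℚ] k, σ s ≠ s := by
    by_contra hcon
    push Not at hcon
    apply hsnot
    have := (IsGalois.mem_bot_iff_fixed (F := ℚ) (E := k) s).mpr hcon
    rw [IntermediateField.mem_bot] at this
    obtain ⟨q, hq⟩ := this
    exact ⟨q, hq.symm⟩
  obtain ⟨σ, hσ⟩ := hex
  have hσ1 : σ ≠ 1 := by
    rintro rfl
    exact hσ rfl
  have hss : σ s = -s := by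
    have h4 : (σ s) ^ 2 = s ^ 2 := by
      rw [← map_pow, hs, map_neg, map_natCast]
    rcases sq_eq_sq_iff_eq_or_eq_neg.mp h4 with h | h
    · exact absurd h hσ
    · exact h
  have hall : ∀ g : k ≃ₐ[ℚ] k, g = 1 ∨ g = σ := by
    intro g
    by_contra hcon
    push Not at hcon
    obtain ⟨hg1, hg2⟩ := hcon
    have : Fintype (k ≃ₐ[ℚ] k) := Fintype.ofFinite _
    classical
    have h5 : ({1, σ, g} : Finset (k ≃ₐ[ℚ] k)).card ≤ Fintype.card (k ≃ₐ[ℚ] k) :=
      Finset.card_le_univ _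
    rw [← Nat.card_eq_fintype_card, hcard] at h5
    rw [Finset.card_insert_of_notMem, Finset.card_insert_of_notMem, Finset.card_singleton] at h5
    · omega
    · simpa using Ne.symm hg2
    · simp [Ne.symm hg1, Ne.symm hσ1]
  refine ⟨σ, hss, ?_, ?_⟩
  · intro x
    have h6 : σ * σ = 1 := by
      rcases hall (σ * σ) with h | h
      · exact h
      · exact absurd (mul_left_cancel (a := σ) (by rw [h, mul_one])) hσ1
    have := congrArg (fun g : k ≃ₐ[ℚ] k => g x) h6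
    simpa using this
  · intro x hx
    have : ∀ g : k ≃ₐ[ℚ] k, g x = x := by
      intro g
      rcases hall g with h | h
      · rw [h]; rfl
      · rw [h]; exact hx
    have := (IsGalois.mem_bot_iff_fixed (F := ℚ) (E := k) x).mpr this
    rw [IntermediateField.mem_bot] at this
    obtain ⟨q, hq⟩ := this
    exact ⟨q, hq.symm⟩

section form

variable {k : Type} [Field k] [NumberField k] {σ : k ≃ₐ[ℚ] k}

theorem norm_form {n : ℕ} (hn : n ≠ 0) {s : k} (hs : s ^ 2 = -(n : k)) (hσs : σ s = -s)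
    (hσ2 : ∀ x, σ (σ x) = x) (hσ : ∀ x : k, σ x = x → ∃ q : ℚ, x = algebraMap ℚ k q) (x : k) :
    ∃ u v : ℚ, x * σ x = algebraMap ℚ k (u ^ 2 + n * v ^ 2) := by
  have hs0 : s ≠ 0 := by
    rintro rfl
    have : (n : k) = 0 := by
      have h : (0 : k) ^ 2 = -(n : k) := hs
      rw [zero_pow two_ne_zero] at h
      exact (neg_eq_zero.1 h.symm)
    exact hn (by exact_mod_cast this)
  obtain ⟨u, hu⟩ := hσ ((x + σ x) / 2) (by
    rw [map_div₀, map_add, hσ2, map_ofNat, add_comm])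
  obtain ⟨v, hv⟩ := hσ ((x - σ x) / (2 * s)) (by
    rw [map_div₀, map_sub, hσ2, map_mul, map_ofNat, hσs]
    field_simp
    ring)
  refine ⟨u, v, ?_⟩
  rw [map_add, map_mul, map_pow, map_pow, map_natCast, ← hu, ← hv]
  have h1 : (n : k) = -s ^ 2 := by rw [hs, neg_neg]
  rw [h1]
  field_simp
  ring

theorem norm_nonneg {n : ℕ} (hn : n ≠ 0) {s : k} (hs : s ^ 2 = -(n : k)) (hσs : σ s = -s)
    (hσ2 : ∀ x, σ (σ x) = x) (hσ : ∀ x : k, σ x = x → ∃ q : ℚ, x = algebraMap ℚ k q) (x : 𝓞 k)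
    {z : ℤ} (hz : x * tau σ x = (z : 𝓞 k)) : 0 ≤ z := by
  obtain ⟨u, v, h⟩ := norm_form hn hs hσs hσ2 hσ (x : k)
  have h1 : algebraMap ℚ k (z : ℚ) = algebraMap ℚ k (u ^ 2 + n * v ^ 2) := by
    rw [← h]
    have h2 := congrArg (fun y : 𝓞 k => (y : k)) hz
    simpa using h2.symm
  have h3 := (algebraMap ℚ k).injective h1
  have h4 : (0 : ℚ) ≤ z := by
    rw [h3]
    positivity
  exact_mod_cast h4

/-- the norm ideal of an ideal with square `(b)` -/
theorem mul_cj_of_sq (h2 : finrank ℚ k = 2) (hσ2 : ∀ x, σ (σ x) = x)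
    (hσ : ∀ x : k, σ x = x → ∃ q : ℚ, x = algebraMap ℚ k q) {b : ℕ} {I : Ideal (𝓞 k)}
    (hI : I ≠ ⊥) (hIb : I ^ 2 = Ideal.span {(b : 𝓞 k)}) :
    I * cj σ I = Ideal.span {(b : 𝓞 k)} := by
  obtain ⟨a, ha0, ha⟩ := ideal_norm h2 hσ2 hσ _ I hI rfl
  have h1 : (I * cj σ I) ^ 2 = Ideal.span {((b * b : ℕ) : 𝓞 k)} := by
    rw [mul_pow, hIb, sq (cj σ I), ← cj_mul, ← sq, hIb, cj_span, tau_nat,
      Ideal.span_singleton_mul_span_singleton]
    push_cast
    rfl
  rw [ha, sq, Ideal.span_singleton_mul_span_singleton] at h1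
  have h3 : Ideal.span {((a * a : ℕ) : 𝓞 k)} = Ideal.span {((b * b : ℕ) : 𝓞 k)} := by
    rw [← h1]
    push_cast
    rfl
  have h6 := congrArg Ideal.absNorm h3
  rw [Ideal.absNorm_span_natCast, Ideal.absNorm_span_natCast, RingOfIntegers.rank, h2] at h6
  have h7 : a * a = b * b := Nat.pow_left_injective two_ne_zero h6
  have h8 : a = b := Nat.mul_self_inj.1 h7
  rw [ha, h8]

/-- from a relation of ideals to a norm -/
theorem forward (h2 : finrank ℚ k = 2) {n : ℕ} (hn : n ≠ 0) {s : k} (hs : s ^ 2 = -(n : k))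
    (hσs : σ s = -s) (hσ2 : ∀ x, σ (σ x) = x)
    (hσ : ∀ x : k, σ x = x → ∃ q : ℚ, x = algebraMap ℚ k q) {b : ℕ} {I J : Ideal (𝓞 k)}
    (hI : I ≠ ⊥) (hJ : J ≠ ⊥) (hIb : I ^ 2 = Ideal.span {(b : 𝓞 k)}) {α β : 𝓞 k}
    (hβ : β ≠ 0) (h : Ideal.span {α} * (J * J) = Ideal.span {β} * I) :
    ∃ u v : ℚ, (b : ℚ) = u ^ 2 + n * v ^ 2 := by
  obtain ⟨c, hc0, hc⟩ := ideal_norm h2 hσ2 hσ _ J hJ rfl
  have hIc := mul_cj_of_sq h2 hσ2 hσ hI hIb
  obtain ⟨z₁, hz₁⟩ := exists_int_norm hσ2 hσ α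
  obtain ⟨z₂, hz₂⟩ := exists_int_norm hσ2 hσ β
  have hp₁ := norm_nonneg hn hs hσs hσ2 hσ α hz₁
  have hp₂ := norm_nonneg hn hs hσs hσ2 hσ β hz₂
  have htβ : tau σ β ≠ 0 := by
    intro h0
    apply hβ
    rw [← tau_tau hσ2 β, h0, map_zero]
  have hz₂0 : z₂ ≠ 0 := by
    rintro rfl
    rw [Int.cast_zero, mul_eq_zero] at hz₂
    rcases hz₂ with h0 | h0
    · exact hβ h0
    · exact htβ h0
  lift z₁ to ℕ using hp₁
  lift z₂ to ℕ using hp₂
  -- take norms
  have hcjm : ∀ A : Ideal (𝓞 k), cj σ (Ideal.span {α} * A) = Ideal.span {tau σ α} * cj σ A :=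
    fun A => by rw [cj_mul, cj_span]
  have e1 : (Ideal.span {α} * (J * J)) * cj σ (Ideal.span {α} * (J * J)) =
      Ideal.span {((z₁ * (c * c) : ℕ) : 𝓞 k)} := by
    rw [cj_mul, cj_span, cj_mul]
    have : Ideal.span {α} * (J * J) * (Ideal.span {tau σ α} * (cj σ J * cj σ J)) =
        (Ideal.span {α} * Ideal.span {tau σ α}) * ((J * cj σ J) * (J * cj σ J)) := by ring
    rw [this, hc, Ideal.span_singleton_mul_span_singleton, hz₁,
      Ideal.span_singleton_mul_span_singleton, Ideal.span_singleton_mul_span_singleton]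
    push_cast
    rfl
  have e2 : (Ideal.span {β} * I) * cj σ (Ideal.span {β} * I) =
      Ideal.span {((z₂ * b : ℕ) : 𝓞 k)} := by
    rw [cj_mul, cj_span]
    have : Ideal.span {β} * I * (Ideal.span {tau σ β} * cj σ I) =
        (Ideal.span {β} * Ideal.span {tau σ β}) * (I * cj σ I) := by ring
    rw [this, hIc, Ideal.span_singleton_mul_span_singleton, hz₂,
      Ideal.span_singleton_mul_span_singleton]
    push_cast
    rfl
  rw [h, e2] at e1
  have h6 := congrArg Ideal.absNorm e1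
  rw [Ideal.absNorm_span_natCast, Ideal.absNorm_span_natCast, RingOfIntegers.rank, h2] at h6
  have h7 : z₂ * b = z₁ * (c * c) := Nat.pow_left_injective two_ne_zero h6
  -- the element
  set g : k := (α : k) * c / (β : k) with hg
  obtain ⟨u, v, huv⟩ := norm_form hn hs hσs hσ2 hσ g
  refine ⟨u, v, ?_⟩
  apply (algebraMap ℚ k).injective
  rw [← huv, map_natCast, hg, map_div₀, map_mul, map_natCast]
  have hβk : (β : k) ≠ 0 := by
    intro h0
    exact hβ (RingOfIntegers.ext (by simpa using h0))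
  have hβs : σ (β : k) ≠ 0 := by
    intro h0
    exact hβk ((map_eq_zero_iff σ σ.injective).1 h0)
  have k1 : (α : k) * σ (α : k) = (z₁ : k) := by
    have := congrArg (fun y : 𝓞 k => (y : k)) hz₁
    simpa using this
  have k2 : (β : k) * σ (β : k) = (z₂ : k) := by
    have := congrArg (fun y : 𝓞 k => (y : k)) hz₂
    simpa using this
  have k3 : (z₂ : k) * b = z₁ * (c * c) := by exact_mod_cast congrArg (fun m : ℕ => (m : k)) h7
  rw [div_mul_div_comm, eq_div_iff (mul_ne_zero hβk hβs)]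
  rw [k2, mul_comm, k3, ← k1]
  ring

/-- from a norm to a square class -/
theorem backward (h2 : finrank ℚ k = 2) {n : ℕ} {s : k} (hs : s ^ 2 = -(n : k))
    (hσs : σ s = -s) (hσ2 : ∀ x, σ (σ x) = x)
    (hσ : ∀ x : k, σ x = x → ∃ q : ℚ, x = algebraMap ℚ k q) {b : ℕ} (hb : b ≠ 0)
    {I : Ideal (𝓞 k)} (hI : I ≠ ⊥) (hIb : I ^ 2 = Ideal.span {(b : 𝓞 k)}) {u v : ℚ}
    (huv : (b : ℚ) = u ^ 2 + n * v ^ 2) :
    ∃ (C : Ideal (𝓞 k)) (α β : 𝓞 k), C ≠ ⊥ ∧ α ≠ 0 ∧ β ≠ 0 ∧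
      Ideal.span {α} * (C * C) = Ideal.span {β} * I := by
  have hIc := mul_cj_of_sq h2 hσ2 hσ hI hIb
  -- clear denominators
  set d : ℕ := u.den * v.den with hd
  have hd0 : d ≠ 0 := Nat.mul_ne_zero u.den_nz v.den_nz
  obtain ⟨U, hU⟩ : ∃ U : ℤ, (U : ℚ) = d * u := by
    refine ⟨u.num * v.den, ?_⟩
    have := Rat.mul_den_eq_num u
    rw [hd]
    push_cast
    linear_combination (-(v.den : ℚ)) * this
  obtain ⟨V, hV⟩ : ∃ V : ℤ, (V : ℚ) = d * v := by
    refine ⟨v.num * u.den, ?_⟩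
    have := Rat.mul_den_eq_num v
    rw [hd]
    push_cast
    linear_combination (-(u.den : ℚ)) * this
  have hsint : IsIntegral ℤ s := by
    apply IsIntegral.of_pow (n := 2) (by norm_num)
    rw [hs]
    apply IsIntegral.neg
    have h0 := isIntegral_algebraMap (R := ℤ) (A := k) (x := (n : ℤ))
    simpa using h0
  obtain ⟨S, hS⟩ : ∃ S : 𝓞 k, (S : k) = s := ⟨⟨s, hsint⟩, rfl⟩
  set G : 𝓞 k := (U : 𝓞 k) + (V : 𝓞 k) * S with hG
  have hGk : (G : k) = U + V * s := by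
    rw [hG]
    simp [hS]
  have hGN : G * tau σ G = ((d * d * b : ℕ) : 𝓞 k) := by
    apply RingOfIntegers.ext
    have q1 : ((U : ℚ) ^ 2 + n * (V : ℚ) ^ 2) = ((d * d * b : ℕ) : ℚ) := by
      rw [hU, hV]
      push_cast
      rw [huv]
      ring
    have q2 : ((U : k) ^ 2 + n * (V : k) ^ 2) = ((d * d * b : ℕ) : k) := by
      have := congrArg (algebraMap ℚ k) q1
      simpa using this
    have q3 : ((G * tau σ G : 𝓞 k) : k) = (U + V * s) * (U + V * (-s)) := by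
      change (G : k) * ((tau σ G : 𝓞 k) : k) = _
      rw [coe_tau, hGk, map_add, map_mul, map_intCast, map_intCast, hσs]
    rw [q3]
    have q4 : (((d * d * b : ℕ) : 𝓞 k) : k) = ((d * d * b : ℕ) : k) := by simp
    rw [q4, ← q2]
    have h1 : (n : k) = -s ^ 2 := by rw [hs, neg_neg]
    rw [h1]
    ring
  set m : ℕ := d * b with hm
  have hm0 : m ≠ 0 := Nat.mul_ne_zero hd0 hb
  have hmk : ((m : ℕ) : 𝓞 k) ≠ 0 := by exact_mod_cast hm0
  have hGt : tau σ G ≠ 0 := by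
    intro h0
    rw [h0, mul_zero] at hGN
    have : ((d * d * b : ℕ) : 𝓞 k) ≠ 0 := by
      exact_mod_cast Nat.mul_ne_zero (Nat.mul_ne_zero hd0 hd0) hb
    exact this hGN.symm
  set B : Ideal (𝓞 k) := Ideal.span {tau σ G} * I with hB
  have hBB : B * cj σ B = Ideal.span {(m : 𝓞 k)} * Ideal.span {(m : 𝓞 k)} := by
    rw [hB, cj_mul, cj_span, tau_tau hσ2]
    have : Ideal.span {tau σ G} * I * (Ideal.span {G} * cj σ I) =
        (Ideal.span {G} * Ideal.span {tau σ G}) * (I * cj σ I) := by ring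
    rw [this, hIc, Ideal.span_singleton_mul_span_singleton, hGN,
      Ideal.span_singleton_mul_span_singleton, Ideal.span_singleton_mul_span_singleton]
    congr 2
    rw [hm]
    push_cast
    ring
  set C : Ideal (𝓞 k) := B ⊔ Ideal.span {(m : 𝓞 k)} with hC
  have hcjC : cj σ C = cj σ B ⊔ Ideal.span {(m : 𝓞 k)} := by
    rw [hC]
    unfold cj
    rw [Ideal.map_sup, Ideal.map_span, Set.image_singleton]
    congr 2
    rw [show (tau σ) (m : 𝓞 k) = (m : 𝓞 k) from tau_nat m]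
  have hBC : B * cj σ C = Ideal.span {(m : 𝓞 k)} * C := by
    rw [hcjC, Ideal.mul_sup, hBB, hC, Ideal.mul_sup, sup_comm, mul_comm B]
  have hC0 : C ≠ ⊥ := by
    intro h0
    have : (m : 𝓞 k) ∈ C := by
      rw [hC]
      exact Ideal.mem_sup_right (Ideal.mem_span_singleton_self _)
    rw [h0] at this
    exact hmk (by simpa using this)
  obtain ⟨a, ha0, ha⟩ := ideal_norm h2 hσ2 hσ _ C hC0 rfl
  have hak : ((a : ℕ) : 𝓞 k) ≠ 0 := by exact_mod_cast ha0
  refine ⟨C, m, a * tau σ G, hC0, hmk, mul_ne_zero hak hGt, ?_⟩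
  calc Ideal.span {(m : 𝓞 k)} * (C * C) = (Ideal.span {(m : 𝓞 k)} * C) * C := by ring
    _ = (B * cj σ C) * C := by rw [hBC]
    _ = B * (C * cj σ C) := by ring
    _ = B * Ideal.span {(a : 𝓞 k)} := by rw [ha]
    _ = (Ideal.span {(a : 𝓞 k)} * Ideal.span {tau σ G}) * I := by rw [hB]; ring
    _ = Ideal.span {(a : 𝓞 k) * tau σ G} * I := by
        rw [Ideal.span_singleton_mul_span_singleton]

end form

theorem t_SQ : S_SQ := by
  intro K _ _ h2 n hsq hs b hb I hIb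
  obtain ⟨s, hs⟩ := hs
  have hn : n ≠ 0 := hsq.ne_zero
  obtain ⟨σ, hσs, hσ2, hσ⟩ := exists_sigma_neg h2 hn hs
  have hI : (I : Ideal (𝓞 K)) ≠ ⊥ := nonZeroDivisors.coe_ne_zero I
  constructor
  · rintro ⟨x, hx⟩
    obtain ⟨J, rfl⟩ := ClassGroup.mk0_surjective x
    rw [← map_pow, ClassGroup.mk0_eq_mk0_iff] at hx
    obtain ⟨α, β, -, hβ, h⟩ := hx
    have hJ : (J : Ideal (𝓞 K)) ≠ ⊥ := nonZeroDivisors.coe_ne_zero J
    refine forward (α := α) h2 hn hs hσs hσ2 hσ hI hJ hIb hβ ?_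
    rw [← h]
    congr 1
    rw [sq]
    rfl
  · rintro ⟨u, v, huv⟩
    obtain ⟨C, α, β, hC, hα, hβ, h⟩ := backward h2 hs hσs hσ2 hσ (by omega) hI hIb huv
    refine ⟨ClassGroup.mk0 ⟨C, mem_nonZeroDivisors_iff_ne_zero.mpr hC⟩, ?_⟩
    rw [← map_pow, ClassGroup.mk0_eq_mk0_iff]
    refine ⟨α, β, hα, hβ, ?_⟩
    rw [← h]
    congr 1
    rw [sq]
    rfl

end Pool.Agent.Y629.FK

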